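import Pool.Agent.H20.SM.TZ
import Pool.Agent.H22.CRG.LE
import Pool.Agent.H99.CRZ.BB
import Pool.Agent.H80.CRG.TR
import Pool.Agent.H96.CRG.DB
import Pool.Agent.H99.CRG.BI
import Pool.Agent.H43.CRG.CK
import Pool.Agent.H54.CRG.QI

/-!
# Board sm_modules, row LEz: the mean square on the left line, for the special moduli

The mean square of the auxiliary function is obtained from the shifted second moment by Cauchy's
formula on a circle of radius `R / 2`; the model is `Pool/Agent/H22/CRG/LE.lean`.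
-/

set_option autoImplicit false

open NumberField NumberField.InfinitePlace Complex Filter Topology MeasureTheory

namespace Pool.Agent.H35.SM

open Pool.Agent.H28.RC Pool.Agent.H25.HK Pool.Agent.H37.CV
open Pool.Agent.H65.CRG Pool.Agent.H20.SM
open Pool.Agent.H65.CRZ (pol ml cu Zx Bm b0)
open Pool.Agent.H22.CRG (pol_ml quo cont_cQ cQ_nonneg core Ph zc' zc'_eq norm_zc')

/-- the special moduli are large -/
theorem Sp_large {F : Type} [Field F] [NumberField F] (A : ℕ) (Q₀ : ℝ) :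
    ∃ x₀ : ℝ, ∀ (x : ℝ) (q : ℕ), x₀ ≤ x → Sp F A x q → Q₀ ≤ (q : ℝ) ∧ 1 ≤ q := by
  refine ⟨max 3 (Q₀ ^ 2), fun x q hx hS => ?_⟩
  have hx3 : (3 : ℝ) ≤ x := (le_max_left _ _).trans hx
  have hxQ : Q₀ ^ 2 ≤ x := (le_max_right _ _).trans hx
  have hl : 0 < Real.log x := Real.log_pos (by linarith)
  have hc : (0 : ℝ) < (q.primeFactors.card : ℝ) := lt_of_lt_of_le (pow_pos hl A) hS.lo
  have hc' : 0 < q.primeFactors.card := by exact_mod_cast hc
  obtain ⟨p, hp⟩ := Finset.card_pos.1 hc'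
  have h1 := hS.low p hp
  have hq0 : q ≠ 0 := (Nat.mem_primeFactors.1 hp).2.2
  have h2 : p ≤ q := Nat.le_of_dvd (Nat.pos_of_ne_zero hq0) (Nat.mem_primeFactors.1 hp).2.1
  have h3 : (p : ℝ) ≤ q := by exact_mod_cast h2
  have h4 : Q₀ ≤ Real.sqrt x := Real.le_sqrt_of_sq_le hxQ
  exact ⟨by linarith, Nat.one_le_iff_ne_zero.2 hq0⟩

/-- the parameters -/
theorem par' {K : Type} [Field K] [NumberField K] {n : ℕ} {c : ℝ} (hn : 1 ≤ n) (hc : 0 < c) {q : ℕ}
    (hq : 1 ≤ q) (hcB : cB K (qi K q) = c * (q : ℝ) ^ n) (h1 : 1 ≤ Real.log q)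
    (h2 : 2 * |Real.log c| ≤ Real.log q) :
    Lg K q = 2 * (Real.log c + n * Real.log q) ∧ Real.log q ≤ Lg K q ∧
      Lg K q ≤ 4 * n * Real.log q ∧ Lg K q = 2 * Real.log (cB K (qi K q)) := by
  have hq0 : (0 : ℝ) < q := by exact_mod_cast hq
  have hn' : (1 : ℝ) ≤ n := by exact_mod_cast hn
  have h4 := le_abs_self (Real.log c)
  have h5 := neg_abs_le (Real.log c)
  have h6 : Lg K q = 2 * (Real.log c + n * Real.log q) := by
    unfold Lg
    rw [hcB, Real.log_mul hc.ne' (pow_pos hq0 n).ne', Real.log_pow]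
  have h7 : Real.log q ≤ n * Real.log q := le_mul_of_one_le_left (by linarith) hn'
  refine ⟨h6, ?_, ?_, rfl⟩
  · rw [h6]
    linarith
  · rw [h6]
    linarith

theorem pf_LEz (hB : T_Bz) (_hMS : T_MSz) (hLF : T_LFz) (hCQ : T_CQz) (hIE : T_IEq)
    (hPNC : T_PNC) (_hNCR : T_NCR) : T_LEz := by
  intro K _ _ _ _
  obtain ⟨A₀, hBA⟩ := hB K
  refine ⟨A₀, ?_⟩
  intro Av N m R ε₁ δ T hAv hpm hR hε hε' hδ hT
  have h2 : Pool.Agent.H65.CRZ.T_BB := Pool.Agent.H99.CRZ.pf_BB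
  have h3 : Pool.Agent.H65.CRG.T_DB := Pool.Agent.H96.CRG.pf_DB Pool.Agent.H99.CRG.pf_BI
    Pool.Agent.H43.CRG.pf_CK Pool.Agent.H54.CRG.pf_QI
  have h6 : Pool.Agent.H65.CRG.T_TR := Pool.Agent.H80.CRG.pf_TR
  obtain ⟨hn, hfr, c, hc, hcB⟩ := hCQ K
  set n := nrComplexPlaces K with hnn
  have hn' : (1 : ℝ) ≤ n := by exact_mod_cast hn
  have hfr' : (Module.finrank ℚ K : ℝ) = 2 * n := by
    rw [hfr]
    push_cast
    rfl
  set x₀ : ℝ := (1 - 2 * ε₁) / 2 with hx₀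
  have hx₀0 : 0 < x₀ := by
    rw [hx₀]
    linarith
  set c₀ : ℝ := cQ N m R x₀ with hc₀
  have hc₀0 : 0 ≤ c₀ := cQ_nonneg N m R hx₀0
  obtain ⟨cc, htr1, htr2, htr3⟩ := h6 n N m hpm
  obtain ⟨B₀, hB₀, hB₀'⟩ := htr3 1 T
  obtain ⟨CL, qL, hCL, hLF⟩ := hLF K
  -- the constants
  obtain ⟨Kq, hKq⟩ : ∃ Kq : ℝ, ∀ i < 2 * N + 1, ‖(qm N m i : ℂ)‖ ≤ Kq := by
    refine ⟨∑ i ∈ Finset.range (2 * N + 1), ‖(qm N m i : ℂ)‖, fun i hi => ?_⟩
    exact Finset.single_le_sum (f := fun i => ‖(qm N m i : ℂ)‖) (fun _ _ => norm_nonneg _)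
      (Finset.mem_range.2 hi)
  set K₁ : ℝ := ∑ j ∈ Finset.range (2 * N + 1), (j.factorial : ℝ) / (R / 2) ^ j with hK₁
  have hK₁0 : 0 ≤ K₁ := Finset.sum_nonneg fun j _ => by positivity
  have hκ' : 0 < (1 - 2 * ε₁) / 4 := div_pos (by linarith) (by norm_num)
  have hκ'1 : (1 - 2 * ε₁) / 4 ≤ 1 := by linarith
  obtain ⟨C₁, hC₁, hBB⟩ := h2 R ((1 - 2 * ε₁) / 4) hR hκ' hκ'1
  obtain ⟨B, hB, hBη⟩ := hBA Av ε₁ (R / (4 * n)) (2 * R) hAv hε hε' (by positivity)
    (by positivity)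
  set θ : ℝ := δ / (16 * (c₀ + δ)) with hθ
  have hθ0 : 0 < θ := by positivity
  have hθ1 : θ ≤ 1 := by
    rw [hθ, div_le_one (by positivity)]
    linarith
  have hθc : θ * c₀ ≤ δ / 16 := by
    have h9 : θ * (c₀ + δ) = δ / 16 := by
      rw [hθ]
      field_simp
    have h10 := mul_pos hθ0 hδ
    linarith
  set η₁ : ℝ := min 1 (δ / (16 * ((Kq * K₁) ^ 2 + 1))) with hη₁
  have hη₁0 : 0 < η₁ := lt_min one_pos (by positivity)
  have hη₁1 : η₁ ≤ 1 := min_le_left _ _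
  have hη₁2 : η₁ * (Kq * K₁) ^ 2 ≤ δ / 16 := by
    have h9 : η₁ * ((Kq * K₁) ^ 2 + 1) ≤ δ / 16 := by
      have h10 := mul_le_mul_of_nonneg_right (min_le_right 1 (δ / (16 * ((Kq * K₁) ^ 2 + 1))))
        (by positivity : 0 ≤ (Kq * K₁) ^ 2 + 1)
      refine h10.trans (le_of_eq ?_)
      field_simp
    linarith
  have hTB : 0 < (1 + T) ^ B := Real.rpow_pos_of_pos (by linarith) _
  obtain ⟨x₁, hx₁⟩ := hBη (η₁ / (1 + T) ^ B) (by positivity)
  set ε₂ : ℝ := δ / (2 * (c₀ + δ)) with hε₂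
  have hε₂0 : 0 < ε₂ := by positivity
  obtain ⟨x₂, hx₂⟩ := hPNC K Av ε₂ hε₂0
  -- the limits
  have hlog : Tendsto (fun q : ℕ => Real.log (q : ℝ)) atTop atTop :=
    Real.tendsto_log_atTop.comp tendsto_natCast_atTop_atTop
  have hquo := quo c ((1 - 2 * ε₁) * n) hn
  have hx₀' : (1 - 2 * ε₁) * n / (2 * n) = x₀ := by
    rw [hx₀]
    have : (n : ℝ) ≠ 0 := by linarith
    field_simp
  rw [hx₀'] at hquo
  have hcQ := ((cont_cQ N m R hx₀0).tendsto.comp hquo).eventually_le_const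
    (show cQ N m R x₀ < c₀ + δ / 16 by rw [← hc₀]; linarith)
  have hsm : ∀ᶠ q : ℕ in atTop, (1 + 1 / θ) * ((C₁ + 1) * ((2 * B₀ / Real.log q) * K₁) ^ 2) ≤
      δ / 16 := by
    have a1 : Tendsto (fun q : ℕ => (1 + 1 / θ) * ((C₁ + 1) * ((2 * B₀ / Real.log (q : ℝ)) *
        K₁) ^ 2)) atTop (𝓝 ((1 + 1 / θ) * ((C₁ + 1) * (0 * K₁) ^ 2))) :=
      ((((hlog.const_div_atTop _).mul_const _).pow 2).const_mul _).const_mul _
    have a2 : (1 + 1 / θ) * ((C₁ + 1) * (0 * K₁) ^ 2) = 0 := by ring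
    rw [a2] at a1
    exact a1.eventually_le_const (by positivity)
  obtain ⟨q₃, hq₃⟩ := eventually_atTop.1 (((hlog.eventually_ge_atTop
    (max 2 (max (2 * |Real.log c|) (4 * R)))).and hcQ).and hsm)
  obtain ⟨x₃, hx₃⟩ := Sp_large (F := K) Av (max (q₃ : ℝ) (qL : ℝ))
  refine ⟨max (max x₁ x₂) x₃, fun xx q hxx hSp t ht => ?_⟩
  have hqa : x₁ ≤ xx := le_trans (le_trans (le_max_left _ _) (le_max_left _ _)) hxx
  have hqb : x₂ ≤ xx := le_trans (le_trans (le_max_right _ _) (le_max_left _ _)) hxx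
  obtain ⟨hqlarge, hq⟩ := hx₃ xx q (le_trans (le_max_right _ _) hxx) hSp
  have hqc : q₃ ≤ q := by exact_mod_cast (le_max_left _ _).trans hqlarge
  have hqd : qL ≤ q := by exact_mod_cast (le_max_right _ _).trans hqlarge
  obtain ⟨⟨hl, hcQq⟩, hsmq⟩ := hq₃ q hqc
  have hl2 : 2 ≤ Real.log q := (le_max_left _ _).trans hl
  have hlc : 2 * |Real.log c| ≤ Real.log q :=
    (le_max_left _ _).trans ((le_max_right _ _).trans hl)
  have hlR : 4 * R ≤ Real.log q := (le_max_right _ _).trans ((le_max_right _ _).trans hl)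
  have hq0 : (0 : ℝ) < q := by exact_mod_cast hq
  obtain ⟨hL1, hL2, hL3, hL4⟩ := par' hn hc hq (hcB q hq).1 (by linarith) hlc
  set L : ℝ := Lg K q with hL
  set A : ℝ := cB K (qi K q) with hA
  have hL0 : 0 < L := by linarith
  have hlq : 0 < Real.log q := by linarith
  have hA0 : 0 < A := by
    rw [hA, (hcB q hq).1]
    positivity
  have hlA : 1 ≤ Real.log A := by linarith
  have hA2 : 2 ≤ A := by
    have a1 := Real.add_one_le_exp (Real.log A)
    rw [Real.exp_log hA0] at a1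
    linarith
  -- the left line
  set s : ℂ := (sl K R q : ℂ) + t * I with hs
  have hsl : sl K R q = 1 / 2 - R / L := rfl
  have hRL : R / L ≤ 1 / 4 := by
    rw [div_le_iff₀ hL0]
    linarith
  have hRL0 : 0 < R / L := by positivity
  have hsre : s.re = 1 / 2 - R / L := by
    rw [hs, hsl]
    simp
  have hsim : s.im = t := by
    rw [hs]
    simp
  -- the characters
  obtain ⟨hfin, -⟩ := hIE K q hSp.sq
  set P : Finset (RCC K) := hfin.toFinset with hP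
  have hPm : ∀ χ ∈ P, χ ∈ Pr K (qi K q) := fun χ hχ => by simpa [hP] using hχ
  have hZd : ∀ χ ∈ P, Differentiable ℂ (Zx χ) := fun χ hχ => (hLF q hqd χ (hPm χ hχ)).2.diff
  set w : RCC K → ℂ := fun χ => ml (Mo K ε₁ q) (sl K R q) χ.ψ s with hw
  set n₀ : ℝ := (nc (qi K q) (qi K q) : ℝ) with hn₀
  have hn₀0 : 0 ≤ n₀ := Nat.cast_nonneg _
  set x : ℝ := (1 - 2 * ε₁) * n * Real.log q / L with hx
  have hx0 : 0 < x := div_pos (mul_pos (mul_pos (by linarith) (by linarith)) hlq) hL0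
  have hMq : Real.log (Mo K ε₁ q) = (1 - 2 * ε₁) * n * Real.log q := by
    unfold Mo
    rw [(hcB q hq).2, Real.log_rpow (pow_pos hq0 _), Real.log_pow, hfr']
    ring
  have hLC : (L : ℂ) ≠ 0 := by exact_mod_cast hL0.ne'
  -- the main term
  have hna : ∀ φ : ℝ, ‖(R : ℂ) / 2 * cexp (φ * I)‖ = R / 2 := by
    intro φ
    rw [← zc'_eq]
    exact norm_zc' (by positivity) φ
  have hnb : ∀ ψ : ℝ, ‖(R : ℂ) / 2 * cexp (-(ψ * I))‖ = R / 2 := by
    intro ψ
    have a1 := hna (-ψ)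
    rwa [show (((-ψ : ℝ) : ℂ) * I) = -((ψ : ℂ) * I) by push_cast; ring] at a1
  have hBBq : ∀ φ ψ : ℝ, Bm ((-R + R / 2 * cexp (φ * I)) / L) ((-R + R / 2 * cexp (-(ψ * I))) / L) L
      (Real.log (Mo K ε₁ q)) = b0 (-R + R / 2 * cexp (φ * I)) (-R + R / 2 * cexp (-(ψ * I))) x ∧
      ‖b0 (-R + R / 2 * cexp (φ * I)) (-R + R / 2 * cexp (-(ψ * I))) x‖ ≤ C₁ := by
    intro φ ψ
    have a1 := hBB L (Real.log (Mo K ε₁ q)) (-R + R / 2 * cexp (φ * I))
      (-R + R / 2 * cexp (-(ψ * I))) hL0 (by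
        rw [hMq]
        have b1 := mul_le_mul_of_nonneg_left hL3 hκ'.le
        refine b1.trans (le_of_eq ?_)
        ring) (by
        rw [hMq, hL1]
        have b1 : 0 < 2 * ε₁ * (n * Real.log q) := by positivity
        have b2 : Real.log q ≤ n * Real.log q := le_mul_of_one_le_left hlq.le hn'
        have b3 := neg_abs_le (Real.log c)
        have b4 : (1 - 2 * ε₁) * n * Real.log q = n * Real.log q -
          2 * ε₁ * (n * Real.log q) := by ring
        rw [b4]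
        linarith) (by
        rw [neg_add_eq_sub, sub_add_cancel, hna]) (by
        rw [neg_add_eq_sub, sub_add_cancel, hnb])
    have a2 : Real.log (Mo K ε₁ q) / L = x := by rw [hMq]
    rw [a2] at a1
    exact a1
  -- the moments
  have hΦ : ∀ φ ψ : ℝ, ‖Ph P (fun χ => Zx χ) w s (R / 2) L φ ψ -
      n₀ * b0 (-R + R / 2 * cexp (φ * I)) (-R + R / 2 * cexp (-(ψ * I))) x‖ ≤ η₁ * n₀ := by
    intro φ ψ
    set α : ℂ := (-R + R / 2 * cexp (φ * I)) / L with hα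
    set β : ℂ := (-R + R / 2 * cexp (-(ψ * I))) / L with hβ
    have e1 : ∀ z : ℂ, ‖z‖ = R / 2 → ‖(-(R : ℂ) + z) / L‖ ≤ 2 * R / Real.log q := by
      intro z hz
      rw [norm_div, Complex.norm_real, Real.norm_eq_abs, abs_of_pos hL0]
      have b1 : ‖-(R : ℂ) + z‖ ≤ 2 * R := by
        refine (norm_add_le _ _).trans ?_
        rw [norm_neg, Complex.norm_real, Real.norm_eq_abs, abs_of_pos hR, hz]
        linarith
      exact div_le_div₀ (by positivity) b1 hlq hL2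
    have e2 : R / (4 * n) / Real.log q ≤ ‖α + β‖ := by
      have b1 : α + β = (-(2 * R : ℝ) + (R / 2 * cexp (φ * I) + R / 2 * cexp (-(ψ * I)))) / L := by
        rw [hα, hβ]
        push_cast
        ring
      rw [b1, norm_div, Complex.norm_real, Real.norm_eq_abs, abs_of_pos hL0]
      have b2 : R ≤ ‖(-(2 * R : ℝ) + (R / 2 * cexp (φ * I) + R / 2 * cexp (-(ψ * I))) : ℂ)‖ := by
        have b3 := norm_add_le (R / 2 * cexp (φ * I) : ℂ) (R / 2 * cexp (-(ψ * I)))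
        rw [hna, hnb] at b3
        have b4 := norm_sub_norm_le (-(2 * R : ℝ) : ℂ) (-(R / 2 * cexp (φ * I) + R / 2 * cexp (-(ψ * I))))
        rw [sub_neg_eq_add, norm_neg, norm_neg, Complex.norm_real, Real.norm_eq_abs,
          abs_of_pos (by positivity)] at b4
        linarith
      rw [div_div]
      exact div_le_div₀ (norm_nonneg _) b2 hL0 hL3
    have key := hx₁ xx q hqa hSp α β t (e1 _ (hna φ)) (e1 _ (hnb ψ)) e2
    have b5 : (1 / 2 + α + t * I : ℂ) = s + zc' (R / 2) φ / L := by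
      rw [hs, hsl, hα, zc'_eq]
      push_cast
      field_simp
      ring
    have b6 : (1 / 2 + (starRingEnd ℂ) β + t * I : ℂ) = s + zc' (R / 2) ψ / L := by
      have b7 : (starRingEnd ℂ) β = (-R + R / 2 * cexp (ψ * I)) / L := by
        rw [hβ, map_div₀, map_add, map_neg, Complex.conj_ofReal, Complex.conj_ofReal, map_mul,
          ← Complex.exp_conj, map_neg, map_mul, Complex.conj_ofReal, Complex.conj_I]
        have b8 : (starRingEnd ℂ) ((R : ℂ) / 2) = (R : ℂ) / 2 := by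
          have b9 : ((R : ℂ) / 2) = ((R / 2 : ℝ) : ℂ) := by push_cast; rfl
          rw [b9, Complex.conj_ofReal]
        rw [b8, mul_neg, neg_neg]
      rw [b7, hs, hsl, zc'_eq]
      push_cast
      field_simp
      ring
    have b10 : ∀ χ : RCC K, pol (Mo K ε₁ q) (cu K (Mo K ε₁ q) t) χ.ψ = w χ := by
      intro χ
      rw [pol_ml (Mo K ε₁ q) (sl K R q) t χ.ψ]
    have b11 : (∑ᶠ χ ∈ Pr K (qi K q), Zx χ (1 / 2 + α + t * I) *
            (starRingEnd ℂ) (Zx χ (1 / 2 + (starRingEnd ℂ) β + t * I)) *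
              ((‖pol (Mo K ε₁ q) (cu K (Mo K ε₁ q) t) χ.ψ‖ ^ 2 : ℝ) : ℂ)) =
        Ph P (fun χ => Zx χ) w s (R / 2) L φ ψ := by
      rw [finsum_mem_eq_finite_toFinset_sum _ hfin, Ph]
      refine Finset.sum_congr rfl fun χ _ => ?_
      rw [b5, b6, b10]
    rw [b11, (hBBq φ ψ).1] at key
    have b12 : ((nc (qi K q) (qi K q) : ℕ) : ℂ) = (n₀ : ℂ) := by
      rw [hn₀]
      push_cast
      rfl
    rw [b12] at key
    refine key.trans ?_
    have b13 : (1 + |t|) ^ B ≤ (1 + T) ^ B :=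
      Real.rpow_le_rpow (by positivity) (by linarith) hB
    refine mul_le_mul_of_nonneg_right ?_ hn₀0
    calc η₁ / (1 + T) ^ B * (1 + |t|) ^ B ≤ η₁ / (1 + T) ^ B * (1 + T) ^ B :=
          mul_le_mul_of_nonneg_left b13 (by positivity)
      _ = η₁ := by field_simp
  -- the coefficients
  have hcc : ∀ i < 2 * N + 1, ‖cc A i s - (qm N m i : ℂ)‖ ≤ 2 * B₀ / Real.log q := by
    intro i _
    have a1 := hB₀' A i s hA2 (by rw [hsre]; linarith) (by rw [hsre]; linarith)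
      (by rw [hsim]; exact ht)
    refine a1.trans ?_
    rw [div_le_div_iff₀ (by linarith) hlq]
    have a2 : Real.log q ≤ 2 * Real.log A := by linarith
    have a3 := mul_le_mul_of_nonneg_left a2 hB₀.le
    linarith
  have main := core h3 P (fun χ => Zx χ) hZd w s (L := L) (R := R) (x := x) (n₀ := n₀) (η := η₁)
    (C₁ := C₁) (κ := 2 * B₀ / Real.log q) (Kq := Kq) (θ := θ) N m (fun i => cc A i s) hR hL0 hx0
    hpm hn₀0 hη₁0.le hθ0 hΦ (fun φ ψ => (hBBq φ ψ).2) hcc hKq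
  rw [← hK₁] at main
  -- the left hand side
  have hleft : ∑ᶠ χ ∈ Pr K (qi K q), ‖fz N m R ε₁ q χ (sl K R q + t * I)‖ ^ 2 =
      ∑ χ ∈ P, ‖(∑ j ∈ Finset.range (2 * N + 1), cc A j s / (L : ℂ) ^ j *
        iteratedDeriv j (Zx χ) s) * w χ‖ ^ 2 := by
    rw [finsum_mem_eq_finite_toFinset_sum _ hfin]
    refine Finset.sum_congr rfl fun χ hχ => ?_
    have a1 := (htr2 A (Zx χ) s (by linarith) (hZd χ hχ) (by rw [hsre]; linarith)).2.2
    unfold fz
    rw [← hs, a1, ← hL4]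
  rw [hleft]
  refine main.trans ?_
  -- the numbers
  have hcQ' : cQ N m R x ≤ c₀ + δ / 16 := by
    have a1 : x = (1 - 2 * ε₁) * n * Real.log q / (2 * (Real.log c + n * Real.log q)) := by
      rw [hx, hL1]
    rw [a1]
    exact hcQq
  have f1 : (1 + θ) * (cQ N m R x + η₁ * (Kq * K₁) ^ 2) ≤ c₀ + 5 * δ / 16 := by
    have a1 : cQ N m R x + η₁ * (Kq * K₁) ^ 2 ≤ c₀ + δ / 8 := by linarith
    have a2 := mul_le_mul_of_nonneg_left a1 (by positivity : (0 : ℝ) ≤ 1 + θ)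
    have a3 : θ * δ ≤ δ := mul_le_of_le_one_left hδ.le hθ1
    have a4 : (1 + θ) * (c₀ + δ / 8) = c₀ + θ * c₀ + δ / 8 + θ * δ / 8 := by ring
    rw [a4] at a2
    linarith
  have f2 : (1 + 1 / θ) * ((C₁ + η₁) * (2 * B₀ / Real.log q * K₁) ^ 2) ≤ δ / 16 := by
    refine le_trans ?_ hsmq
    refine mul_le_mul_of_nonneg_left ?_ (by positivity)
    exact mul_le_mul_of_nonneg_right (by linarith) (sq_nonneg _)
  have f3 : (1 - ε₂) * (c₀ + δ) = c₀ + δ / 2 := by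
    rw [hε₂]
    have : c₀ + δ ≠ 0 := by positivity
    field_simp
    ring
  have f4 := (hx₂ xx q hqb hSp).1
  calc n₀ * _ ≤ n₀ * (c₀ + δ / 2) := mul_le_mul_of_nonneg_left (by linarith) hn₀0
    _ = ((1 - ε₂) * n₀) * (c₀ + δ) := by rw [← f3]; ring
    _ ≤ ((Pr K (qi K q)).ncard : ℝ) * (c₀ + δ) := mul_le_mul_of_nonneg_right f4 (by positivity)
    _ = _ := by ring

end Pool.Agent.H35.SM
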